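import Pool.Agent.Lib.H26.Cplx

/-!
# Blocks of a sequence which form an FDD can be thinned out to a linearly independent sequence
-/

open Filter Topology Set

namespace Pool.Agent.H26FDD

open Pool.Agent.H26

variable {𝕜 V : Type*} [RCLike 𝕜] [NormedAddCommGroup V] [NormedSpace 𝕜 V]

theorem sum_blocks (n : ℕ → ℕ) (h0 : n 0 = 0) (hn : StrictMono n) (F : ℕ → V) (K : ℕ) :
    ∑ k ∈ Finset.range K, ∑ j ∈ Finset.Ico (n k) (n (k + 1)), F j = ∑ j ∈ Finset.range (n K), F j := by
  induction K with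
  | zero => simp [h0]
  | succ K ih =>
    rw [Finset.sum_range_succ, ih, Finset.range_eq_Ico, Finset.range_eq_Ico]
    exact Finset.sum_Ico_consecutive F (Nat.zero_le _) (hn.monotone (Nat.le_succ K))

/-- Thinning out. -/
theorem thin (v : ℕ → V) (hv : ∀ i, v i ≠ 0) (n : ℕ → ℕ) (h0 : n 0 = 0) (hn : StrictMono n)
    (h : IsFDD (fun k => Submodule.span 𝕜 {g : V | ∃ i, n k ≤ i ∧ i < n (k + 1) ∧ g = v i})) :
    ∃ (e n' : ℕ → ℕ), n' 0 = 0 ∧ StrictMono n' ∧ LinearIndependent 𝕜 (fun i => v (e i)) ∧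
      ∀ k, Submodule.span 𝕜 {g : V | ∃ i, n' k ≤ i ∧ i < n' (k + 1) ∧ g = v (e i)} =
        Submodule.span 𝕜 {g : V | ∃ i, n k ≤ i ∧ i < n (k + 1) ∧ g = v i} := by
  classical
  have hb : ∀ k, ∃ b : Set ℕ, b ⊆ Set.Ico (n k) (n (k + 1)) ∧
      v '' Set.Ico (n k) (n (k + 1)) ⊆ Submodule.span 𝕜 (v '' b) ∧ LinearIndepOn 𝕜 v b := by
    intro k
    obtain ⟨b, h1, _, h2, h3⟩ := exists_linearIndepOn_extension (K := 𝕜) (v := v)
      (linearIndepOn_empty 𝕜 v) (Set.empty_subset (Set.Ico (n k) (n (k + 1))))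
    exact ⟨b, h1, h2, h3⟩
  choose b hb1 hb2 hb3 using hb
  set S : Set ℕ := ⋃ k, b k with hS
  have hdisj : ∀ j k, j ∈ S → n k ≤ j → j < n (k + 1) → j ∈ b k := by
    intro j k hj h1 h2
    obtain ⟨l, hl⟩ := Set.mem_iUnion.1 hj
    have hl' := hb1 l hl
    have hlk : l = k := by
      rcases lt_trichotomy l k with h | h | h
      · have : n (l + 1) ≤ n k := hn.monotone h
        have := hl'.2
        omega
      · exact h
      · have : n (k + 1) ≤ n l := hn.monotone h
        have := hl'.1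
        omega
    exact hlk ▸ hl
  have hne : ∀ k, ∃ j, j ∈ b k := by
    intro k
    by_contra hcon
    have hcon : ∀ j, j ∉ b k := fun j hj => hcon ⟨j, hj⟩
    have hbe : b k = ∅ := Set.eq_empty_iff_forall_notMem.2 hcon
    have hmem : v (n k) ∈ Submodule.span 𝕜 (v '' b k) :=
      hb2 k ⟨n k, ⟨le_rfl, hn (Nat.lt_succ_self k)⟩, rfl⟩
    rw [hbe, Set.image_empty, Submodule.span_empty, Submodule.mem_bot] at hmem
    exact hv _ hmem
  have hSinf : S.Infinite := by
    rw [Set.infinite_iff_exists_gt]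
    intro a
    obtain ⟨j, hj⟩ := hne (a + 1)
    refine ⟨j, Set.mem_iUnion.2 ⟨a + 1, hj⟩, ?_⟩
    have h1 := (hb1 _ hj).1
    have h2 : a + 1 ≤ n (a + 1) := hn.id_le (a + 1)
    omega
  have hLI : LinearIndepOn 𝕜 v S := by
    rw [linearIndepOn_iff']
    intro t g ht hsum j hj
    set g' : ℕ → 𝕜 := fun i => if i ∈ t then g i else 0 with hg'
    have hbound : ∃ N, ∀ i ∈ t, i < n N := by
      refine ⟨t.sup id + 1, fun i hi => ?_⟩
      have h1 : i ≤ t.sup id := Finset.le_sup (f := id) hi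
      have h2 : t.sup id + 1 ≤ n (t.sup id + 1) := hn.id_le _
      omega
    obtain ⟨N, hN⟩ := hbound
    have hzero : ∀ K, N ≤ K → ∑ i ∈ Finset.range (n K), g' i • v i = 0 := by
      intro K hK
      rw [← hsum]
      symm
      have h1 : ∑ i ∈ t, g i • v i = ∑ i ∈ t, g' i • v i := by
        refine Finset.sum_congr rfl fun i hi => ?_
        simp only [hg', if_pos hi]
      rw [h1]
      apply Finset.sum_subset
      · intro i hi
        exact Finset.mem_range.2 (lt_of_lt_of_le (hN i hi) (hn.monotone hK))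
      · intro i _ hi
        simp only [hg', if_neg hi, zero_smul]
    obtain ⟨y0, _, huniq⟩ := h.2 0
    have hy := huniq (fun k => ∑ i ∈ Finset.Ico (n k) (n (k + 1)), g' i • v i) ⟨?_, ?_⟩
    · have hz := huniq (fun _ => 0) ⟨fun k => Submodule.zero_mem _, by simp⟩
      obtain ⟨k, hk⟩ := Set.mem_iUnion.1 (ht hj)
      have hyk : ∑ i ∈ Finset.Ico (n k) (n (k + 1)), g' i • v i = 0 := by
        have := congrFun (hy.trans hz.symm) k
        simpa using this
      have hsub : ∑ i ∈ (Finset.Ico (n k) (n (k + 1))).filter (· ∈ b k), g' i • v i = 0 := by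
        rw [Finset.sum_filter]
        refine Eq.trans (Finset.sum_congr rfl fun i hi => ?_) hyk
        split
        · rfl
        · rename_i hib
          rw [Finset.mem_Ico] at hi
          have : i ∉ t := fun hit => hib (hdisj i k (ht hit) hi.1 hi.2)
          have h0' : g' i = 0 := by simp only [hg', if_neg this]
          rw [h0', zero_smul]
      have hli := linearIndepOn_iff'.1 (hb3 k) ((Finset.Ico (n k) (n (k + 1))).filter (· ∈ b k)) g'
        (by
          intro i hi
          exact (Finset.mem_filter.1 hi).2) hsub j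
        (by
          rw [Finset.mem_filter, Finset.mem_Ico]
          exact ⟨⟨(hb1 k hk).1, (hb1 k hk).2⟩, hk⟩)
      simpa only [hg', if_pos hj] using hli
    · intro k
      refine Submodule.sum_mem _ fun i hi => Submodule.smul_mem _ _ (Submodule.subset_span ?_)
      rw [Finset.mem_Ico] at hi
      exact ⟨i, hi.1, hi.2, rfl⟩
    · have : (fun K => ∑ k ∈ Finset.range K, ∑ i ∈ Finset.Ico (n k) (n (k + 1)), g' i • v i) =ᶠ[atTop]
          fun _ => (0 : V) := by
        filter_upwards [eventually_ge_atTop N] with K hK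
        rw [sum_blocks n h0 hn]
        exact hzero K hK
      exact (tendsto_congr' this).2 tendsto_const_nhds
  have hinf : {j : ℕ | j ∈ S}.Infinite := hSinf
  refine ⟨Nat.nth (fun j => j ∈ S), fun k => Nat.count (fun j => j ∈ S) (n k), ?_, ?_, ?_, ?_⟩
  · simp [h0]
  · refine strictMono_nat_of_lt_succ fun k => ?_
    obtain ⟨j, hj⟩ := hne k
    have hj' := hb1 k hj
    have h1 : Nat.count (fun j => j ∈ S) (n k) ≤ Nat.count (fun j => j ∈ S) j :=
      Nat.count_monotone _ hj'.1
    have h2 : Nat.count (fun j => j ∈ S) j < Nat.count (fun j => j ∈ S) (n (k + 1)) :=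
      Nat.count_strict_mono (p := fun j => j ∈ S) (Set.mem_iUnion.2 ⟨k, hj⟩) hj'.2
    omega
  · have h1 : Function.Injective (fun i : ℕ =>
        (⟨Nat.nth (fun j => j ∈ S) i, Nat.nth_mem_of_infinite hinf i⟩ : S)) := by
      intro i i' hii
      have := congrArg Subtype.val hii
      exact Nat.nth_injective hinf this
    exact (LinearIndependent.comp hLI _ h1)
  · intro k
    have hset : {g : V | ∃ i, Nat.count (fun j => j ∈ S) (n k) ≤ i ∧
        i < Nat.count (fun j => j ∈ S) (n (k + 1)) ∧ g = v (Nat.nth (fun j => j ∈ S) i)} =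
        v '' b k := by
      ext g
      constructor
      · rintro ⟨i, h1, h2, rfl⟩
        rw [Nat.count_le_iff_le_nth hinf] at h1
        have h2' : Nat.nth (fun j => j ∈ S) i < n (k + 1) := Nat.nth_lt_of_lt_count h2
        exact ⟨_, hdisj _ k (Nat.nth_mem_of_infinite hinf i) h1 h2', rfl⟩
      · rintro ⟨j, hj, rfl⟩
        have hjS : j ∈ S := Set.mem_iUnion.2 ⟨k, hj⟩
        have hj' := hb1 k hj
        refine ⟨Nat.count (fun j => j ∈ S) j, Nat.count_monotone _ hj'.1, ?_, ?_⟩
        · exact Nat.count_strict_mono (p := fun j => j ∈ S) hjS hj'.2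
        · rw [Nat.nth_count (p := fun j => j ∈ S) hjS]
    show Submodule.span 𝕜 {g : V | ∃ i, Nat.count (fun j => j ∈ S) (n k) ≤ i ∧
        i < Nat.count (fun j => j ∈ S) (n (k + 1)) ∧ g = v (Nat.nth (fun j => j ∈ S) i)} = _
    rw [hset]
    apply le_antisymm
    · apply Submodule.span_mono
      rintro _ ⟨j, hj, rfl⟩
      exact ⟨j, (hb1 k hj).1, (hb1 k hj).2, rfl⟩
    · rw [Submodule.span_le]
      rintro _ ⟨i, h1, h2, rfl⟩
      exact hb2 k ⟨i, ⟨h1, h2⟩, rfl⟩

end Pool.Agent.H26FDD
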