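import Pool.Agent.Lib.H26FDD.Basis

open MeasureTheory Filter Topology Set
open scoped ENNReal

namespace Pool.Agent.H26FDD

open Pool.Agent.H26

theorem exists_ne_zero (𝕜 : Type*) [RCLike 𝕜] (p : ℝ≥0∞) [Fact (1 ≤ p)] (hp : p ≠ ∞) :
    ∃ x : Lp 𝕜 p (volume : Measure ℝ), x ≠ 0 := by
  have hfin : (volume : Measure ℝ) (Set.Ioc 0 1) ≠ ∞ := by simp
  refine ⟨indicatorConstLp p measurableSet_Ioc hfin (1 : 𝕜), fun h => ?_⟩
  have hp0 : p ≠ 0 := (lt_of_lt_of_le zero_lt_one (Fact.out : 1 ≤ p)).ne'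
  have h1 := norm_indicatorConstLp (c := (1 : 𝕜)) (hs := measurableSet_Ioc) (hμs := hfin) hp0 hp
  rw [h] at h1
  simp at h1

/-- The main theorem with linearly independent translates. -/
theorem main_indep (𝕜 : Type*) [RCLike 𝕜] (p : ℝ≥0∞) [Fact (1 ≤ p)] (hp1 : 1 < p) (hp : p ≠ ∞) :
    ∃ (f : Lp 𝕜 p (volume : Measure ℝ)) (lam : ℕ → ℝ) (n : ℕ → ℕ), n 0 = 0 ∧ StrictMono n ∧
      Function.Injective lam ∧ LinearIndependent 𝕜 (fun i => translate 𝕜 p (lam i) f) ∧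
      IsUnconditionalFDD (fun k => Submodule.span 𝕜
        {g : Lp 𝕜 p (volume : Measure ℝ) |
          ∃ i, n k ≤ i ∧ i < n (k + 1) ∧ g = translate 𝕜 p (lam i) f}) := by
  obtain ⟨f, lam, n, h0, hn, h⟩ := main_rclike 𝕜 p hp1 hp
  have hf : f ≠ 0 := by
    intro hf
    obtain ⟨x, hx⟩ := exists_ne_zero 𝕜 p hp
    obtain ⟨y, ⟨hy1, hy2⟩, _⟩ := h.1.2 x
    have hy : ∀ k, y k = 0 := by
      intro k
      have h1 := hy1 k
      have h2 : {g : Lp 𝕜 p (volume : Measure ℝ) |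
          ∃ i, n k ≤ i ∧ i < n (k + 1) ∧ g = translate 𝕜 p (lam i) f} ⊆ {0} := by
        rintro g ⟨i, _, _, rfl⟩
        rw [hf, map_zero]
        rfl
      have h3 := Submodule.span_mono (R := 𝕜) h2 h1
      rwa [Submodule.span_zero_singleton, Submodule.mem_bot] at h3
    simp only [hy, Finset.sum_const_zero] at hy2
    exact hx (tendsto_nhds_unique hy2 tendsto_const_nhds)
  have hv : ∀ i, translate 𝕜 p (lam i) f ≠ 0 := by
    intro i hi
    exact hf ((translate 𝕜 p (lam i)).injective (hi.trans (map_zero _).symm))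
  obtain ⟨e, n', h0', hn', hLI, hE⟩ := thin (𝕜 := 𝕜) (fun i => translate 𝕜 p (lam i) f) hv n h0 hn h.1
  refine ⟨f, fun i => lam (e i), n', h0', hn', ?_, hLI, ?_⟩
  · intro i j hij
    apply hLI.injective
    show translate 𝕜 p (lam (e i)) f = translate 𝕜 p (lam (e j)) f
    have : lam (e i) = lam (e j) := hij
    rw [this]
  · have : (fun k => Submodule.span 𝕜 {g : Lp 𝕜 p (volume : Measure ℝ) |
        ∃ i, n' k ≤ i ∧ i < n' (k + 1) ∧ g = translate 𝕜 p (lam (e i)) f}) =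
        (fun k => Submodule.span 𝕜 {g : Lp 𝕜 p (volume : Measure ℝ) |
          ∃ i, n k ≤ i ∧ i < n (k + 1) ∧ g = translate 𝕜 p (lam i) f}) := funext hE
    rw [this]
    exact h

end Pool.Agent.H26FDD
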